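import Pool.Agent.N242.NT.Stm

set_option autoImplicit false

/-!
# Project NT (helper242), SEM: an equivalent norm given as a seminorm comes from a Banach space
(helper701)
-/

open Metric Set Filter Topology

namespace Pool.Agent.N701.NT

open Pool.Agent.N242.NT

universe u

/-- a copy of the space, for the other norm -/
def Zt (H : Type u) : Type u := H

instance {H : Type u} [NormedAddCommGroup H] : AddCommGroup (Zt H) :=
  inferInstanceAs (AddCommGroup H)

instance {H : Type u} [NormedAddCommGroup H] [NormedSpace ℝ H] : Module ℝ (Zt H) :=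
  inferInstanceAs (Module ℝ H)

/-- the group norm -/
def gn {H : Type u} [NormedAddCommGroup H] [NormedSpace ℝ H] (M : Seminorm ℝ H)
    (hM : ∀ x, M x = 0 → x = 0) : AddGroupNorm (Zt H) where
  toFun := M
  map_zero' := map_zero M
  add_le' := map_add_le_add M
  neg' := map_neg_eq_map M
  eq_zero_of_map_eq_zero' := hM

theorem t_SEM : S_SEM.{u} := by
  intro H _ _ _ M c C hc hb
  have hM : ∀ x, M x = 0 → x = 0 := by
    intro x hx
    have h1 := (hb x).1
    rw [hx] at h1
    have h2 : ‖x‖ ≤ 0 := by
      by_contra h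
      push Not at h
      nlinarith
    exact norm_le_zero_iff.1 h2
  let i1 : NormedAddCommGroup (Zt H) := (gn M hM).toNormedAddCommGroup
  have hn : ∀ x : Zt H, ‖x‖ = M (show H from x) := fun x => rfl
  let i2 : NormedSpace ℝ (Zt H) :=
    { (inferInstance : Module ℝ (Zt H)) with
      norm_smul_le := fun a x => le_of_eq (M.smul' a x) }
  let e0 : Zt H ≃ₗ[ℝ] H := LinearEquiv.refl ℝ H
  let e : Zt H ≃L[ℝ] H := e0.toContinuousLinearEquivOfBounds (1 / c) C
    (fun x => by
      have h1 := (hb (show H from x)).1
      rw [hn, one_div, ← div_eq_inv_mul, le_div_iff₀ hc, mul_comm]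
      exact h1)
    (fun x => (hb x).2)
  have i3 : CompleteSpace (Zt H) := (completeSpace_congr (e := e.toEquiv) e.isUniformEmbedding).2
    inferInstance
  exact ⟨Zt H, i1, i2, i3, e, fun z => rfl⟩

end Pool.Agent.N701.NT
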